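import Mathlib

/-!
# The field `K = ℚ(√2, √5)`: basic definitions

`F = ℚ(φ)`, `φ² = φ + 1`, and `K = F(√2)`. The elements of `K` are `mk a b c d = a + b φ + c √2 + d φ √2`, with rational
`a, b, c, d`. The ring `R = ℤ[√2, φ]` consists of those with integral `a, b, c, d`.
-/

set_option autoImplicit false

namespace Pool.Agent.U624.KT

/-- `ℚ(φ)` -/
abbrev F : Type := QuadraticAlgebra ℚ 1 1

instance factF : Fact (∀ r : ℚ, r ^ 2 ≠ 1 + 1 * r) := ⟨by
  intro r hr
  have h : (2 * r - 1) ^ 2 = 5 := by linarith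
  have h2 : IsSquare (5 : ℚ) := ⟨2 * r - 1, by linarith⟩
  rw [Rat.isSquare_iff] at h2
  obtain ⟨n, hn⟩ := h2.1
  norm_num at hn
  have h3 : n.natAbs * n.natAbs = 5 := by
    have := congrArg Int.natAbs hn
    rw [Int.natAbs_mul] at this
    exact this.symm
  have h4 : n.natAbs ≤ 2 := by nlinarith
  interval_cases n.natAbs <;> omega⟩

instance factK : Fact (∀ r : F, r ^ 2 ≠ 2 + 0 * r) := ⟨by
  intro r hr
  rw [zero_mul, add_zero] at hr
  obtain ⟨x, y⟩ := r
  have h1 := congrArg QuadraticAlgebra.re hr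
  have h2 := congrArg QuadraticAlgebra.im hr
  have e1 : ((2 : F)).re = 2 := rfl
  have e2 : ((2 : F)).im = 0 := rfl
  rw [e1, sq] at h1
  rw [e2, sq] at h2
  simp only [QuadraticAlgebra.re_mul, QuadraticAlgebra.im_mul] at h1 h2
  have h3 : y * (2 * x + y) = 0 := by linarith
  have key : ∀ q : ℚ, q * q ≠ 2 := by
    intro q hq
    have h2 : IsSquare (2 : ℚ) := ⟨q, hq.symm⟩
    rw [Rat.isSquare_iff] at h2
    obtain ⟨n, hn⟩ := h2.1
    norm_num at hn
    have h3 : n.natAbs * n.natAbs = 2 := by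
      have := congrArg Int.natAbs hn
      rw [Int.natAbs_mul] at this
      exact this.symm
    have h4 : n.natAbs ≤ 1 := by nlinarith
    interval_cases n.natAbs <;> omega
  have key10 : ∀ q : ℚ, q * q ≠ 40 := by
    intro q hq
    have h2 : IsSquare (40 : ℚ) := ⟨q, hq.symm⟩
    rw [Rat.isSquare_iff] at h2
    obtain ⟨n, hn⟩ := h2.1
    norm_num at hn
    have h3 : n.natAbs * n.natAbs = 40 := by
      have := congrArg Int.natAbs hn
      rw [Int.natAbs_mul] at this
      exact this.symm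
    have h4 : n.natAbs ≤ 6 := by nlinarith
    interval_cases n.natAbs <;> omega
  rcases mul_eq_zero.1 h3 with h | h
  · rw [h] at h1
    exact key x (by linarith)
  · have hx : x = -y / 2 := by linarith
    rw [hx] at h1
    exact key10 (5 * y) (by linarith)⟩

/-- `ℚ(√2, √5)` -/
def K : Type := QuadraticAlgebra F 2 0

noncomputable instance : Field K := inferInstanceAs (Field (QuadraticAlgebra F 2 0))

/-- `a + b φ + c √2 + d φ √2` -/
def mk (a b c d : ℚ) : K := (⟨⟨a, b⟩, ⟨c, d⟩⟩ : QuadraticAlgebra F 2 0)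

/-- the coordinates -/
def c0 (x : K) : ℚ := QuadraticAlgebra.re (QuadraticAlgebra.re (show QuadraticAlgebra F 2 0 from x))
/-- the coordinates -/
def c1 (x : K) : ℚ := QuadraticAlgebra.im (QuadraticAlgebra.re (show QuadraticAlgebra F 2 0 from x))
/-- the coordinates -/
def c2 (x : K) : ℚ := QuadraticAlgebra.re (QuadraticAlgebra.im (show QuadraticAlgebra F 2 0 from x))
/-- the coordinates -/
def c3 (x : K) : ℚ := QuadraticAlgebra.im (QuadraticAlgebra.im (show QuadraticAlgebra F 2 0 from x))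

@[simp] theorem c0_mk (a b c d : ℚ) : c0 (mk a b c d) = a := rfl
@[simp] theorem c1_mk (a b c d : ℚ) : c1 (mk a b c d) = b := rfl
@[simp] theorem c2_mk (a b c d : ℚ) : c2 (mk a b c d) = c := rfl
@[simp] theorem c3_mk (a b c d : ℚ) : c3 (mk a b c d) = d := rfl

theorem eta (x : K) : mk (c0 x) (c1 x) (c2 x) (c3 x) = x := rfl

theorem exists_mk (x : K) : ∃ a b c d : ℚ, x = mk a b c d := ⟨_, _, _, _, (eta x).symm⟩

theorem mk_inj {a b c d a' b' c' d' : ℚ} (h : mk a b c d = mk a' b' c' d') :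
    a = a' ∧ b = b' ∧ c = c' ∧ d = d' :=
  ⟨congrArg c0 h, congrArg c1 h, congrArg c2 h, congrArg c3 h⟩

theorem mk_ext {a b c d a' b' c' d' : ℚ} (h0 : a = a') (h1 : b = b') (h2 : c = c') (h3 : d = d') :
    mk a b c d = mk a' b' c' d' := by rw [h0, h1, h2, h3]

@[simp] theorem mk_add (a b c d a' b' c' d' : ℚ) :
    mk a b c d + mk a' b' c' d' = mk (a + a') (b + b') (c + c') (d + d') := rfl

@[simp] theorem mk_neg (a b c d : ℚ) : -mk a b c d = mk (-a) (-b) (-c) (-d) := rfl

@[simp] theorem mk_sub (a b c d a' b' c' d' : ℚ) :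
    mk a b c d - mk a' b' c' d' = mk (a - a') (b - b') (c - c') (d - d') := rfl

theorem mk_mul (a b c d a' b' c' d' : ℚ) :
    mk a b c d * mk a' b' c' d' =
      mk (a * a' + b * b' + 2 * (c * c' + d * d'))
        (a * b' + b * a' + b * b' + 2 * (c * d' + d * c' + d * d'))
        (a * c' + b * d' + c * a' + d * b')
        (a * d' + b * c' + b * d' + (c * b' + d * a' + d * b')) := by
  show ((⟨⟨a, b⟩, ⟨c, d⟩⟩ : QuadraticAlgebra F 2 0) * ⟨⟨a', b'⟩, ⟨c', d'⟩⟩ : QuadraticAlgebra F 2 0) = _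
  have e1 : ((2 : F)).re = 2 := rfl
  have e2 : ((2 : F)).im = 0 := rfl
  ext <;> simp [mk, QuadraticAlgebra.re_mul, QuadraticAlgebra.im_mul, e1, e2] <;> ring

theorem mk_zero : mk 0 0 0 0 = 0 := rfl
theorem mk_one : mk 1 0 0 0 = 1 := rfl

instance : CharZero K := by
  have h : CharZero (QuadraticAlgebra F 2 0) := inferInstance
  exact h

theorem ratCast_eq (q : ℚ) : (q : K) = mk q 0 0 0 := by
  have h : ((q : ℚ) : QuadraticAlgebra F 2 0) = ⟨⟨q, 0⟩, ⟨0, 0⟩⟩ := by
    ext <;> simp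
  exact h

theorem intCast_eq (n : ℤ) : (n : K) = mk n 0 0 0 := by
  rw [← ratCast_eq]; push_cast; rfl

theorem natCast_eq (n : ℕ) : (n : K) = mk n 0 0 0 := by
  rw [← ratCast_eq]; push_cast; rfl

/-- `√2` -/
def s : K := mk 0 0 1 0

/-- `φ` -/
def f : K := mk 0 1 0 0

theorem two_eq : (2 : K) = mk 2 0 0 0 := by
  have := natCast_eq 2
  push_cast at this
  exact this

theorem s_sq : s ^ 2 = 2 := by
  rw [sq, s, mk_mul, two_eq]
  exact mk_ext (by norm_num) (by norm_num) (by norm_num) (by norm_num)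

theorem f_sq : f ^ 2 = f + 1 := by
  rw [sq, f, mk_mul, ← mk_one, mk_add]
  exact mk_ext (by norm_num) (by norm_num) (by norm_num) (by norm_num)

theorem mk_eq (a b c d : ℚ) : mk a b c d = (a : K) + (b : K) * f + (c : K) * s + (d : K) * (f * s) := by
  rw [ratCast_eq, ratCast_eq, ratCast_eq, ratCast_eq, f, s]
  simp only [mk_mul, mk_add]
  exact mk_ext (by ring) (by ring) (by ring) (by ring)

/-- The linear form `a + b + c + d`; it is the trace of `η x`, where `η` is a totally positive generator of the inverse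
different. -/
def lam (x : K) : ℚ := c0 x + c1 x + c2 x + c3 x

/-- the ring `ℤ[√2, φ]` -/
def R : Subring K where
  carrier := {x | ∃ a b c d : ℤ, x = mk a b c d}
  mul_mem' := by
    rintro _ _ ⟨a, b, c, d, rfl⟩ ⟨a', b', c', d', rfl⟩
    refine ⟨a * a' + b * b' + 2 * (c * c' + d * d'), a * b' + b * a' + b * b' + 2 * (c * d' + d * c' + d * d'),
      a * c' + b * d' + c * a' + d * b', a * d' + b * c' + b * d' + (c * b' + d * a' + d * b'), ?_⟩
    rw [mk_mul]
    push_cast
    rfl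
  one_mem' := ⟨1, 0, 0, 0, by push_cast; exact mk_one.symm⟩
  add_mem' := by
    rintro _ _ ⟨a, b, c, d, rfl⟩ ⟨a', b', c', d', rfl⟩
    exact ⟨a + a', b + b', c + c', d + d', by rw [mk_add]; push_cast; rfl⟩
  zero_mem' := ⟨0, 0, 0, 0, by push_cast; exact mk_zero.symm⟩
  neg_mem' := by
    rintro _ ⟨a, b, c, d, rfl⟩
    exact ⟨-a, -b, -c, -d, by rw [mk_neg]; push_cast; rfl⟩

theorem mem_R {x : K} : x ∈ R ↔ ∃ a b c d : ℤ, x = mk a b c d := Iff.rfl

theorem s_mem : s ∈ R := ⟨0, 0, 1, 0, by push_cast; rfl⟩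
theorem f_mem : f ∈ R := ⟨0, 1, 0, 0, by push_cast; rfl⟩

/-- totally positive elements -/
def TP (x : K) : Prop := ∀ σ : K →+* ℝ, 0 < σ x

/-- the four real embeddings of `K`: `√2 ↦ e`, `φ ↦ g` -/
noncomputable def emb (e g : ℝ) (he : e ^ 2 = 2) (hg : g ^ 2 = g + 1) : K →+* ℝ where
  toFun x := c0 x + c1 x * g + c2 x * e + c3 x * (g * e)
  map_one' := by
    rw [← mk_one]; simp
  map_zero' := by
    rw [← mk_zero]; simp
  map_add' := by
    intro x y
    obtain ⟨a, b, c, d, rfl⟩ := exists_mk x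
    obtain ⟨a', b', c', d', rfl⟩ := exists_mk y
    rw [mk_add]
    simp only [c0_mk, c1_mk, c2_mk, c3_mk]
    push_cast
    ring
  map_mul' := by
    intro x y
    obtain ⟨a, b, c, d, rfl⟩ := exists_mk x
    obtain ⟨a', b', c', d', rfl⟩ := exists_mk y
    rw [mk_mul]
    simp only [c0_mk, c1_mk, c2_mk, c3_mk]
    push_cast
    linear_combination (-((b : ℝ) * b' + d * d' * e ^ 2 + b * d' * e + b' * d * e)) * hg +
      (-((c : ℝ) * c' + c * d' * g + c' * d * g + d * d' * (g + 1))) * he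

theorem emb_apply (e g : ℝ) (he : e ^ 2 = 2) (hg : g ^ 2 = g + 1) (x : K) :
    emb e g he hg x = c0 x + c1 x * g + c2 x * e + c3 x * (g * e) := rfl

end Pool.Agent.U624.KT
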