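import Pool.Agent.U624.KT.Base

/-!
# Project KT: the form `x² + y² + z² - √2 x y - √2 x z + y z` is universal over `ℤ[√2, φ]` (frozen statement S18713)

Statements of the packages. `S_X` is the statement of the package `X`; prove `theorem t_X : S_X`
(or `theorem t_X (h : S_Y) ... : S_X` where the table kt_jobs says so).

## The proof

`K = ℚ(√2, √5)`, `R = ℤ[√2, φ]` its ring of integers, `OS` the maximal order
`R ⟨1, (1 + i)/√2, (1 + j)/√2, (1 + i + j + k)/2⟩` of the quaternions over `K`; it is its own dual for the trace form.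
`lam x` is the trace of `η x`, `η` a totally positive generator of the inverse different of `K`.

1. (LT) Let `I` be a left ideal of `OS` whose norm is generated by the totally positive `a`. The lattice `I` with
`lam (2 normSq x / a)` is an even unimodular lattice of rank `16`, so it has a vector `x ≠ 0` with the value `2`
(Blichfeldt: GN, UNI). The totally positive `γ = normSq x / a` of `R` has `lam γ = 1`, so `γ = ε²` or `(2 - √2) ε²` with a unit `ε`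
(SIX).
2. (DES, CONJ) So if `v` is a pure quaternion with `I v ⊆ I`, then `v` is conjugate to a pure element of `OS`.
3. (TWO) For a totally positive `β` in `R` with norm a prime `p ≡ 1 mod 4`, apply this to `I = OS β + OS (σ + i)`,
`σ² ≡ -1 mod p` and `v = i`: `β` is a sum of two squares.
4. (PIT, EXT) Let `α` be totally positive in `R`, not a square. By the prime ideal theorem for narrow ray classes of
`L = K(√α)` there is `ω = w + z √α` which generates a prime ideal of prime norm `p`, is `≡ 1 mod 4`, positive where `√α > 0` and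
negative where `√α < 0`. Then `β = α z² - w²` is totally positive of norm `p ≡ 1 mod 4`.
5. (THREE) So `α z² = w² + x² + y²`, and 2. for `I = OS + OS v`, `v = (w i + x j + y k) / z`, gives `2 α = A² + B² + C²` in `R`.
-/

set_option autoImplicit false

open scoped Quaternion
open Quaternion (normSq)

namespace Pool.Agent.U624.KT

/-- the ring `R[1/2]` -/
def R2 : Subring K where
  carrier := {x | ∃ n : ℕ, 2 ^ n * x ∈ R}
  mul_mem' := by
    rintro x y ⟨n, hn⟩ ⟨m, hm⟩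
    refine ⟨n + m, ?_⟩
    have : (2 : K) ^ (n + m) * (x * y) = (2 ^ n * x) * (2 ^ m * y) := by ring
    rw [this]
    exact R.mul_mem hn hm
  one_mem' := ⟨0, by simp⟩
  add_mem' := by
    rintro x y ⟨n, hn⟩ ⟨m, hm⟩
    refine ⟨n + m, ?_⟩
    have : (2 : K) ^ (n + m) * (x + y) = 2 ^ m * (2 ^ n * x) + 2 ^ n * (2 ^ m * y) := by ring
    rw [this]
    have h2 : (2 : K) ∈ R := by
      have := R.add_mem R.one_mem R.one_mem
      rwa [one_add_one_eq_two] at this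
    exact R.add_mem (R.mul_mem (R.pow_mem h2 _) hn) (R.mul_mem (R.pow_mem h2 _) hm)
  zero_mem' := ⟨0, by simp⟩
  neg_mem' := by
    rintro x ⟨n, hn⟩
    refine ⟨n, ?_⟩
    rw [mul_neg]
    exact R.neg_mem hn

/-- the maximal order `R ⟨1, (1 + i)/√2, (1 + j)/√2, (1 + i + j + k)/2⟩` -/
def OS (q : ℍ[K]) : Prop :=
  2 * q.re ∈ R ∧ 2 * q.imI ∈ R ∧ 2 * q.imJ ∈ R ∧ 2 * q.imK ∈ R ∧ s * (q.re - q.imI) ∈ R ∧
    s * (q.re - q.imJ) ∈ R ∧ s * (q.re - q.imK) ∈ R ∧ q.re + q.imI + q.imJ + q.imK ∈ R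

/-- all coordinates are in `R[1/2]` -/
def RQ (q : ℍ[K]) : Prop := q.re ∈ R2 ∧ q.imI ∈ R2 ∧ q.imJ ∈ R2 ∧ q.imK ∈ R2

/-- the quaternion `i` -/
noncomputable def qi : ℍ[K] := ⟨0, 1, 0, 0⟩

/-- `I` is stable under the multiplication by `OS` from the left. -/
def IsLeft (I : AddSubgroup ℍ[K]) : Prop := ∀ t, OS t → ∀ x ∈ I, t * x ∈ I

/-- The norms of the elements of `I` generate the (fractional) ideal `a R`. -/
def HasNorm (I : AddSubgroup ℍ[K]) (a : K) : Prop :=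
  (∀ x ∈ I, ∃ r ∈ R, normSq x = r * a) ∧
    ∃ (n : ℕ) (c : Fin n → K) (x : Fin n → ℍ[K]), (∀ i, c i ∈ R) ∧ (∀ i, x i ∈ I) ∧
      ∑ i, c i * normSq (x i) = a

/-- GAL: `K` is a totally real Galois extension of `ℚ` of degree four, the automorphisms have order at most two. -/
def S_GAL : Prop := ∃ _ : NumberField K, Module.finrank ℚ K = 4 ∧ IsGalois ℚ K ∧ (∀ σ : K ≃ₐ[ℚ] K, σ * σ = 1) ∧
  NumberField.IsTotallyReal K

/-- INT: `R` is the ring of integers. -/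
def S_INT : Prop := ∀ x : K, IsIntegral ℤ x ↔ x ∈ R

/-- EMB: the real embeddings. -/
def S_EMB : Prop := ∀ σ : K →+* ℝ, ∃ (e g : ℝ) (he : e ^ 2 = 2) (hg : g ^ 2 = g + 1), σ = emb e g he hg

/-- GN (geometry of numbers, Blichfeldt). If all nonzero integral `z` had `zᵀ G z ≥ 4`, then every closed ball of radius `r`,
`r² = 16/9`, contained at most `2 / (2 - r²) = 9` points of the lattice `P ℤ^16`, `G = Pᵀ P`, `det P = 1`; so its volume
`π^8 / 8! (16/9)^8 = 23.4…` would be at most `9`. -/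
def S_GN : Prop := ∀ G : Matrix (Fin 16) (Fin 16) ℝ, G.PosDef → G.det = 1 →
  ∃ z : Fin 16 → ℤ, z ≠ 0 ∧ (fun i => (z i : ℝ)) ⬝ᵥ (G.mulVec fun i => (z i : ℝ)) < 4

/-- UNI: a self-dual integral lattice in a positive definite rational quadratic space of dimension `16` has a vector `x ≠ 0`
with `T x x < 4`. (The Gram matrix of a `ℤ`-basis is integral and its inverse is integral, so its determinant is `1`.) -/
def S_UNI : Prop := ∀ (V : Type) [AddCommGroup V] [Module ℚ V] (T : V →ₗ[ℚ] V →ₗ[ℚ] ℚ) (L : AddSubgroup V),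
  Module.finrank ℚ V = 16 → (∀ x y, T x y = T y x) → (∀ x, x ≠ 0 → 0 < T x x) →
  Submodule.span ℚ (L : Set V) = ⊤ → (∀ x ∈ L, ∀ y ∈ L, ∃ n : ℤ, T x y = n) →
  (∀ z : V, (∀ x ∈ L, ∃ n : ℤ, T x z = n) → z ∈ L) → ∃ x ∈ L, x ≠ 0 ∧ T x x < 4

/-- LAM: the trace form. (`lam x` is the sum over the four embeddings `(e, g)` of
`(1 + e) / (2 e) * g / (2 g - 1) * emb e g x`, all these factors are positive.) -/
def S_LAM : Prop := (∀ x : K, TP x → 0 < lam x) ∧ (∀ x ∈ R, ∃ n : ℤ, lam x = n) ∧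
  ∀ x : K, (∀ r ∈ R, ∃ n : ℤ, lam (x * r) = n) → x ∈ R

/-- SIX: the totally positive elements of `R` with `lam = 1` are `1`, `2 - φ`, `2 - √2`, `3 - 2 √2`, `(2 - √2) (2 - φ)`,
`(3 - 2 √2) (2 - φ)`. -/
def S_SIX : Prop := ∀ γ ∈ R, TP γ → lam γ = 1 →
  ∃ ε ∈ R, ∃ ε' ∈ R, ε * ε' = 1 ∧ (γ = ε ^ 2 ∨ γ = (2 - s) * ε ^ 2)

/-- ORD: `OS` is an order which is its own dual for the trace form. -/
def S_ORD : Prop := (∀ r ∈ R, OS (r : ℍ[K])) ∧ (∀ q : ℍ[K], q.re ∈ R → q.imI ∈ R → q.imJ ∈ R → q.imK ∈ R → OS q) ∧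
  (∀ x y, OS x → OS y → OS (x + y)) ∧
  (∀ x, OS x → OS (-x)) ∧ (∀ x y, OS x → OS y → OS (x * y)) ∧ (∀ x, OS x → OS (star x)) ∧
  (∀ x, OS x → normSq x ∈ R) ∧ ∀ z : ℍ[K], (∀ t, OS t → 2 * (t * z).re ∈ R) → OS z

/-- LT: a left ideal has an element whose norm is nearly the norm of the ideal. -/
def S_LT : Prop := ∀ (I : AddSubgroup ℍ[K]) (a : K), TP a → IsLeft I → HasNorm I a →
  ∃ x ∈ I, ∃ ε ∈ R, ∃ ε' ∈ R, ε * ε' = 1 ∧ (normSq x = ε ^ 2 * a ∨ normSq x = (2 - s) * ε ^ 2 * a)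

/-- DES: the 2-adic step. With `v = (A i + B j + C k) / 2` the residues of `(A, B, C)` modulo `√2` are, up to the order,
`(0, 0, 0)` (take `g = 1`), `(0, λ, λ)` (then `A / √2`, `(B ± C) / 2` are in `R`; take `g = 1 + (1 ± i) / √2`, a rotation by
45 degrees), or `(1, φ, φ²)` (then one of the conjugates by the powers of `ρ = (φ + i + (φ - 1) j) / 2`, or of
`ρ = (φ + i + (φ - 1) k) / 2` for the odd order, of the order 5, has all coordinates divisible by `√2`). -/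
def S_DES : Prop := ∀ v : ℍ[K], v.re = 0 → 2 * v.imI ∈ R → 2 * v.imJ ∈ R → 2 * v.imK ∈ R → normSq v ∈ R →
  ∃ g w : ℍ[K], (normSq g = 1 ∨ normSq g = 2 + s) ∧ RQ g ∧ OS w ∧ w.re = 0 ∧ g * v = w * g

/-- CONJ. (For `x`, `z` in `I`: `z * star x / a` is in `OS`, since `2 re (t z star x) / a` is in `R` for all `t` in `OS`. So for
`x` as in LT and `v' = x v x⁻¹`: `γ v'` is in `OS` for `γ = normSq x / a`, and DES can be applied to `v'`.) -/
def S_CONJ : Prop := ∀ (I : AddSubgroup ℍ[K]) (a : K) (v : ℍ[K]), TP a → IsLeft I → HasNorm I a → v.re = 0 →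
  normSq v ∈ R → (∀ x ∈ I, x * v ∈ I) → ∃ x ∈ I, ∃ g w : ℍ[K], ∃ ε ∈ R, ∃ ε' ∈ R, ε * ε' = 1 ∧
    (normSq x = ε ^ 2 * a ∨ normSq x = (2 - s) * ε ^ 2 * a) ∧ (normSq g = 1 ∨ normSq g = 2 + s) ∧ RQ g ∧ OS w ∧
    w.re = 0 ∧ g * x * v = w * (g * x)

/-- SMALL. (`w = (A i + B j + C k) / √2` with `A² + B² + C² = 2`; by `lam` and SIX the nonzero ones of `A²`, `B²`, `C²` are `1, 1` or
`2`. Take `h = i + w`, and `h = j` for `w = -i`.) -/
def S_SMALL : Prop := ∀ w : ℍ[K], OS w → w.re = 0 → normSq w = 1 → ∃ h : ℍ[K], RQ h ∧ h * qi = w * h ∧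
  ∃ x ∈ R2, ∃ y ∈ R2, ∃ u ∈ R2, x ^ 2 + y ^ 2 = normSq h ∧ normSq h * u = 1

/-- TWO: sums of two squares. -/
def S_TWO : Prop := ∀ (β β' : K) (p : ℕ), β ∈ R → β' ∈ R → TP β → p.Prime → p % 4 = 1 → β * β' = p →
  ∃ x ∈ R2, ∃ y ∈ R2, x ^ 2 + y ^ 2 = β

/-- CHAIN: the ideals of `R` that contain a power of two. -/
def S_CHAIN : Prop := ∀ (g : AddSubgroup K) (N : ℕ), (∀ x ∈ g, x ∈ R) → (∀ r ∈ R, ∀ x ∈ g, r * x ∈ g) →
  (2 : K) ^ N ∈ g → ∃ k : ℕ, ∀ x, x ∈ g ↔ ∃ r ∈ R, x = (2 + s) ^ k * r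

/-- PIT: prime elements of prime norm, congruent to `1` modulo `m`, with given signs. -/
def S_PIT : Prop := ∀ (L : Type) [Field L] [NumberField L] (m : ℕ) (w0 : NumberField.RingOfIntegers L), 2 ≤ m →
  w0 - 1 ∈ Ideal.span {(m : NumberField.RingOfIntegers L)} →
  ∃ w : NumberField.RingOfIntegers L, (Ideal.absNorm (Ideal.span {w})).Prime ∧
    w - 1 ∈ Ideal.span {(m : NumberField.RingOfIntegers L)} ∧ ∀ σ : L →+* ℝ, 0 < σ w ↔ 0 < σ w0

/-- EXT: see 4. above. -/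
def S_EXT : Prop := ∀ α ∈ R, TP α → (¬ ∃ δ : K, δ ^ 2 = α) →
  ∃ w ∈ R, ∃ z ∈ R, ∃ β ∈ R, ∃ β' ∈ R, ∃ p : ℕ, TP z ∧ TP β ∧ α * z ^ 2 = w ^ 2 + β ∧
    (∃ r ∈ R, ∃ t ∈ R, r * w + t * z = 1) ∧ p.Prime ∧ p % 4 = 1 ∧ β * β' = p

/-- THREE: `2 α` is a sum of three squares. -/
def S_THREE : Prop := ∀ α ∈ R, TP α → ∃ A ∈ R, ∃ B ∈ R, ∃ C ∈ R, A ^ 2 + B ^ 2 + C ^ 2 = 2 * α

/-- FIN: the frozen statement S18713 (`theorem t_FIN (h1 : S_GAL) (h2 : S_INT) (h3 : S_THREE) : S_FIN`). The form is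
`x² + y² + z² - √2 x y - √2 x z + y z`; `2 Q = (√2 x - y - z)² + y² + z²`. -/
def S_FIN : Prop :=
    ∃ (K : Type) (_ : Field K) (_ : NumberField K),
      Module.finrank ℚ K = 4 ∧ IsGalois ℚ K ∧ (∀ σ : K ≃ₐ[ℚ] K, σ * σ = 1) ∧
      NumberField.IsTotallyReal K ∧
      ∃ a : Fin 3 → Fin 3 → NumberField.RingOfIntegers K,
        (∀ φ : K →+* ℝ, ∀ x : Fin 3 → ℝ, x ≠ 0 →
          0 < ∑ i : Fin 3, ∑ j : Fin 3,
            (if i ≤ j then φ ((a i j : NumberField.RingOfIntegers K) : K) * x i * x j else 0)) ∧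
        ∀ α : NumberField.RingOfIntegers K,
          (∀ φ : K →+* ℝ, 0 < φ ((α : NumberField.RingOfIntegers K) : K)) →
          ∃ v : Fin 3 → NumberField.RingOfIntegers K,
            (∑ i : Fin 3, ∑ j : Fin 3, (if i ≤ j then a i j * v i * v j else 0)) = α

end Pool.Agent.U624.KT
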